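import Pool.Agent.Helper44.TOT.Defs

/-! TOT-S8: Brun-Titchmarsh type bound from the sieve for one form -/

set_option autoImplicit false

namespace Pool.Agent.Helper95.TOT

open Pool.Agent.Helper44.TOT

theorem bt (hS : SieveForms) : BT := by
  refine ⟨20, by norm_num, ?_⟩
  intro a X ha hX
  have hXR : (2 : ℝ) ≤ X := by exact_mod_cast hX
  have hXpos : (0 : ℝ) < X := by linarith
  have hlogX : 0 < Real.log X := Real.log_pos (by linarith)
  have hφ : 0 < a.totient := Nat.totient_pos.2 ha
  have hφR : (0 : ℝ) < a.totient := by exact_mod_cast hφ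
  have hle : (a.totient : ℝ) ≤ a := by exact_mod_cast Nat.totient_le a
  have hr : 1 ≤ (a : ℝ) / a.totient := (one_le_div hφR).2 hle
  set r : ℝ := (a : ℝ) / a.totient with hrdef
  set U := (Finset.Icc 1 X).filter (fun k => (a * k + 1).Prime) with hU
  have hq : 0 ≤ (X : ℝ) / Real.log X := div_nonneg hXpos.le hlogX.le
  by_cases h8 : X < 8
  · have h1 : U.card ≤ X := by
      have h0 : U.card ≤ (Finset.Icc 1 X).card :=
        Finset.card_filter_le (Finset.Icc 1 X) (fun k => (a * k + 1).Prime)
      rw [Nat.card_Icc] at h0
      omega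
    have h2 : Real.log X ≤ 7 := by
      have : Real.log X ≤ X - 1 := Real.log_le_sub_one_of_pos hXpos
      have h3 : (X : ℝ) < 8 := by exact_mod_cast h8
      linarith
    have h3 : (X : ℝ) ≤ 7 * (X / Real.log X) := by
      rw [mul_div_assoc', le_div_iff₀ hlogX]
      nlinarith
    have h4 : (U.card : ℝ) ≤ X := by exact_mod_cast h1
    have h5 : 20 * (X / Real.log X) ≤ 20 * r * (X / Real.log X) := by
      have := mul_le_mul_of_nonneg_right hr hq
      linarith
    linarith
  · push Not at h8
    -- the sifting level
    set z := Nat.findGreatest (fun z => z ^ 3 ≤ X) X with hz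
    have hz3 : z ^ 3 ≤ X :=
      Nat.findGreatest_spec (P := fun z => z ^ 3 ≤ X) (m := 2) (n := X) (by omega) (by norm_num; exact h8)
    have hz2 : 2 ≤ z :=
      Nat.le_findGreatest (P := fun z => z ^ 3 ≤ X) (by omega) (by norm_num; exact h8)
    have hz1 : X < (z + 1) ^ 3 := by
      by_contra hcon
      push Not at hcon
      have h1 : z + 1 ≤ X := by
        calc z + 1 ≤ (z + 1) ^ 3 := Nat.le_self_pow (by norm_num) _
          _ ≤ X := hcon
      have := Nat.le_findGreatest (P := fun z => z ^ 3 ≤ X) h1 hcon
      omega
    have hzR : (2 : ℝ) ≤ z := by exact_mod_cast hz2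
    have hlogz : 0 < Real.log z := Real.log_pos (by linarith)
    -- lower and upper bounds for logarithms
    have hL1 : Real.log X ≤ 6 * Real.log z := by
      have h1 : X ≤ z ^ 6 := by
        have h2 : z + 1 ≤ z ^ 2 := by nlinarith
        calc X ≤ (z + 1) ^ 3 := hz1.le
          _ ≤ (z ^ 2) ^ 3 := Nat.pow_le_pow_left h2 3
          _ = z ^ 6 := by ring
      have h2 : Real.log X ≤ Real.log ((z : ℝ) ^ 6) :=
        Real.log_le_log hXpos (by exact_mod_cast h1)
      rw [Real.log_pow] at h2
      exact_mod_cast h2
    have hL2 : Real.log X ≤ 3 * z := by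
      have h2 : Real.log X ≤ Real.log (((z : ℝ) + 1) ^ 3) :=
        Real.log_le_log hXpos (by exact_mod_cast hz1.le)
      rw [Real.log_pow] at h2
      have h3 : Real.log ((z : ℝ) + 1) ≤ z := by
        have := Real.log_le_sub_one_of_pos (by linarith : (0 : ℝ) < (z : ℝ) + 1)
        linarith
      push_cast at h2
      linarith
    -- the sieve
    set S := U.filter (fun k => z < a * k + 1) with hSdef
    have hsieve := hS {(a, 1)} a (X + 1) z (Finset.singleton_nonempty _) ha hz2
      (by
        intro l hl hl1
        rw [Finset.card_singleton] at hl1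
        exact absurd hl.two_le (by omega))
      (by
        intro f hf l _ hlf
        rw [Finset.mem_singleton] at hf
        rw [hf] at hlf
        exact hlf)
      (by
        intro f hf g hg hfg
        rw [Finset.mem_singleton] at hf hg
        exact absurd (hf.trans hg.symm) hfg)
      S
      (by
        intro n hn
        rw [hSdef, Finset.mem_filter, hU, Finset.mem_filter, Finset.mem_Icc] at hn
        obtain ⟨⟨⟨_, hnX⟩, hpr⟩, hzn⟩ := hn
        refine ⟨by omega, ?_⟩
        intro f hf l hl hlz hdvd
        rw [Finset.mem_singleton] at hf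
        rw [hf] at hdvd
        simp only at hdvd
        rcases (Nat.dvd_prime hpr).1 hdvd with h | h
        · exact hl.one_lt.ne' h
        · omega)
    rw [Finset.card_singleton] at hsieve
    simp only [Nat.cast_one, one_mul, pow_one] at hsieve
    -- the exceptional part
    have hexc : (U.filter (fun k => ¬ z < a * k + 1)).card ≤ z := by
      have hsub : U.filter (fun k => ¬ z < a * k + 1) ⊆ Finset.Icc 1 z := by
        intro k hk
        rw [Finset.mem_filter, hU, Finset.mem_filter, Finset.mem_Icc] at hk
        rw [Finset.mem_Icc]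
        refine ⟨hk.1.1.1, ?_⟩
        have h1 : 1 * k ≤ a * k := Nat.mul_le_mul_right k ha
        omega
      have := Finset.card_le_card hsub
      rw [Nat.card_Icc] at this
      omega
    have hsplit : U.card = S.card + (U.filter (fun k => ¬ z < a * k + 1)).card :=
      (Finset.card_filter_add_card_filter_not (s := U) (fun k => z < a * k + 1)).symm
    have hUc : (U.card : ℝ) ≤ S.card + z := by
      rw [hsplit]
      push_cast
      have : ((U.filter (fun k => ¬ z < a * k + 1)).card : ℝ) ≤ z := by exact_mod_cast hexc
      linarith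
    -- estimate of the sieve term
    have hz3R : (z : ℝ) ^ 3 ≤ X := by exact_mod_cast hz3
    have h1 : (S.card : ℝ) ≤ 18 * r * (X / Real.log X) := by
      refine hsieve.trans ?_
      push_cast
      have e1 : ((X : ℝ) + 1 + (z : ℝ) ^ 3) ≤ 3 * X := by linarith
      have e2 : (a : ℝ) / (a.totient * Real.log z) = r / Real.log z := by
        rw [hrdef, div_div]
      have e3 : r / Real.log z ≤ 6 * r / Real.log X := by
        rw [div_le_div_iff₀ hlogz hlogX]
        have := mul_le_mul_of_nonneg_left hL1 (by linarith : 0 ≤ r)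
        linarith
      rw [e2]
      calc ((X : ℝ) + 1 + (z : ℝ) ^ 3) * (r / Real.log z)
          ≤ (3 * X) * (6 * r / Real.log X) := by
            apply mul_le_mul e1 e3 (div_nonneg (by linarith) hlogz.le) (by linarith)
        _ = 18 * r * (X / Real.log X) := by ring
    have h2 : (z : ℝ) ≤ 2 * (X / Real.log X) := by
      rw [mul_div_assoc', le_div_iff₀ hlogX]
      have e1 : (z : ℝ) * Real.log X ≤ z * (3 * z) := mul_le_mul_of_nonneg_left hL2 (by linarith)
      have e2 : 3 * (z : ℝ) ^ 2 ≤ 2 * (z : ℝ) ^ 3 := by nlinarith [sq_nonneg (z : ℝ)]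
      nlinarith
    have h3 : 2 * (X / Real.log X) ≤ 2 * r * (X / Real.log X) := by
      have := mul_le_mul_of_nonneg_right hr hq
      linarith
    calc (U.card : ℝ) ≤ S.card + z := hUc
      _ ≤ 18 * r * (X / Real.log X) + 2 * r * (X / Real.log X) := by linarith
      _ = 20 * r * (X / Real.log X) := by ring

end Pool.Agent.Helper95.TOT
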