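import Pool.Agent.Helper44.TOT.Defs

/-! TOT-W2x: basic properties of the completely additive function `FF` -/

set_option autoImplicit false

namespace Pool.Agent.Helper95.TOT

open Pool.Agent.Helper44.TOT

theorem FF_eq (n : ℕ) :
    FF n = (n.primeFactorsList.map (fun q => if q = 2 then 1 else FF (q - 1))).sum := by
  rw [FF]
  have h : n.primeFactorsList.attach.map
      (fun q => if _h : q.1 = 2 then 1 else FF (q.1 - 1)) =
      (n.primeFactorsList.attach.map Subtype.val).map (fun q => if q = 2 then 1 else FF (q - 1)) := by
    rw [List.map_map]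
    refine List.map_congr_left (fun q _ => ?_)
    simp only [Function.comp]
    split_ifs <;> rfl
  rw [h, List.attach_map_subtype_val]

theorem FF_one : FF 1 = 0 := by
  rw [FF_eq]
  simp

theorem FF_two : FF 2 = 1 := by
  rw [FF_eq, Nat.primeFactorsList_prime Nat.prime_two]
  simp

theorem FF_prime {p : ℕ} (hp : p.Prime) (h3 : 3 ≤ p) : FF p = FF (p - 1) := by
  rw [FF_eq, Nat.primeFactorsList_prime hp]
  simp only [List.map_cons, List.map_nil, List.sum_cons, List.sum_nil, add_zero]
  rw [if_neg (by omega)]

theorem FF_mul {m n : ℕ} (hm : 1 ≤ m) (hn : 1 ≤ n) : FF (m * n) = FF m + FF n := by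
  rw [FF_eq (m * n), FF_eq m, FF_eq n]
  rw [((Nat.perm_primeFactorsList_mul (by omega : m ≠ 0) (by omega : n ≠ 0)).map _).sum_eq]
  rw [List.map_append, List.sum_append]

theorem FF_bounds (n : ℕ) : 1 ≤ n →
    (FF n : ℝ) ≤ Real.log n / Real.log 2 ∧ Real.log n / Real.log 3 ≤ FF n := by
  have l2 : 0 < Real.log 2 := Real.log_pos (by norm_num)
  have l3 : 0 < Real.log 3 := Real.log_pos (by norm_num)
  have l23 : Real.log 2 ≤ Real.log 3 := Real.log_le_log (by norm_num) (by norm_num)
  induction n using Nat.strong_induction_on with
  | _ n ih =>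
    intro hn
    rcases Nat.eq_or_lt_of_le hn with h1 | h1
    · rw [← h1, FF_one]
      simp
    · by_cases hp : n.Prime
      · rcases Nat.eq_or_lt_of_le hp.two_le with h2 | h2
        · rw [← h2, FF_two]
          push_cast
          rw [div_self l2.ne']
          exact ⟨le_refl 1, (div_le_one l3).2 l23⟩
        · have h3 : 3 ≤ n := h2
          obtain ⟨hi1, hi2⟩ := ih (n - 1) (by omega) (by omega)
          rw [FF_prime hp h3]
          refine ⟨hi1.trans (div_le_div_of_nonneg_right (Real.log_le_log ?_ ?_) l2.le), ?_⟩
          · exact_mod_cast (by omega : 0 < n - 1)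
          · exact_mod_cast Nat.sub_le n 1
          · have hodd : Odd n := hp.odd_of_ne_two (by omega)
            obtain ⟨m, hm⟩ := hodd
            have hm1 : 1 ≤ m := by omega
            have e : n - 1 = 2 * m := by omega
            obtain ⟨_, hm2⟩ := ih m (by omega) hm1
            rw [e, FF_mul (by norm_num) hm1, FF_two]
            push_cast
            have hmR : (1 : ℝ) ≤ m := by exact_mod_cast hm1
            have e2 : Real.log n ≤ Real.log 3 + Real.log m := by
              rw [← Real.log_mul (by norm_num) (by positivity)]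
              refine Real.log_le_log (by positivity) ?_
              rw [hm]
              push_cast
              linarith
            rw [div_le_iff₀ l3] at hm2 ⊢
            linarith
      · obtain ⟨a, b, ha, hb, hab⟩ : ∃ a b : ℕ, 1 < a ∧ 1 < b ∧ n = a * b := by
          obtain ⟨a, ha1, ha2, ha3⟩ := Nat.exists_dvd_of_not_prime2 (by omega : 2 ≤ n) hp
          obtain ⟨b, hb⟩ := ha1
          refine ⟨a, b, by omega, ?_, hb⟩
          rcases b with _ | _ | b
          · omega
          · omega
          · omega
        have ha' : a < n := by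
          rw [hab]
          exact lt_mul_of_one_lt_right (by omega) hb
        have hb' : b < n := by
          rw [hab]
          exact lt_mul_of_one_lt_left (by omega) ha
        obtain ⟨a1, a2⟩ := ih a ha' (by omega)
        obtain ⟨b1, b2⟩ := ih b hb' (by omega)
        rw [hab, FF_mul (by omega) (by omega)]
        push_cast
        have haR : (a : ℝ) ≠ 0 := by exact_mod_cast (by omega : a ≠ 0)
        have hbR : (b : ℝ) ≠ 0 := by exact_mod_cast (by omega : b ≠ 0)
        rw [Real.log_mul haR hbR, add_div, add_div]
        exact ⟨add_le_add a1 b1, add_le_add a2 b2⟩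

theorem ffprops : FFprops :=
  ⟨FF_one, FF_two, fun _ hp h3 => FF_prime hp h3, fun _ _ hm hn => FF_mul hm hn,
    fun n hn => FF_bounds n hn⟩

end Pool.Agent.Helper95.TOT
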